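import Pool.Agent.Zk41.PY.E

/-!
# Every odd integer: primes `p` in progressions with `n - f(p)` almost prime

Let `f = x² + b x + c` be admissible. For EVERY large odd `n`, uniformly in `f` (`|b|, |c| ≤ n ^ A`), and every
`x ≥ n ^ ε` such that `f < n` on `(x, 2 x]`, the set `P` of the primes `p ∈ (x, 2 x]` for which `n - f(p)` has at most `s`
prime factors, all larger than `x ^ δ`, has at least `c₀` times the expected number of elements, and every subset of `P`
with a positive proportion of its elements contains `k` members in arithmetic progression with a difference of at most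
`(log x) ^ B`. Here `s`, `δ`, `c₀` depend on `ε` and `A` only (not on `k`, `κ`, `f`, `n`, `x`).

For a fixed `f` all `x` with `n ^ ε ≤ x ≤ √n / 3` are allowed, once `n` is large.

Proof. Progressions: Szemerédi's theorem relative to the integers `t` at which a polynomial `F ∈ ℤ[X]` without fixed prime
divisor has no small prime factors, uniformly in all polynomials of bounded degree with coefficients `≤ H ^ C`
(`Zk41.PY.pol`), applied to `F = X (n - f(X))`. The theorem `eng2_all` on sifted sets (`Zk41.LS`, from the starting files)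
requires that for most differences `W j` (`j` up to a power of `log H`) the numbers `F(t)`, `F(t + W j)` have no common prime factor
above `exp (√ log H)` and few below; the large ones divide the resultant of `F(X)` and `F(X + W j)`: if it is not zero, they
are removed from `F` at a small cost (its size is a power of `H`), and it vanishes for boundedly many `j`; the small ones
are treated on average over `j` (`Zk41.PY.badP`). Lower bound: the sieve of the starting files for primes (Bombieri–Vinogradov),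
with the lower side of the fundamental lemma (`Zk41.PY.lowPr`).
-/

set_option autoImplicit false

open Finset Polynomial

namespace Pool.Agent.Results.MP_d9bc60_nt.EveryOddInteger

/-- `S` contains a progression `a, a + d, …, a + (k - 1) d` with difference `1 ≤ d ≤ D`. -/
def HasAP (k : ℕ) (D : ℝ) (S : Finset ℕ) : Prop :=
  ∃ a d : ℕ, 1 ≤ d ∧ (d : ℝ) ≤ D ∧ ∀ i < k, a + i * d ∈ S

/-- the number of the classes `r` modulo `q` with `q ∣ r (n - f(r))`, where `f = x² + b x + c` -/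
def rho (b c : ℤ) (n q : ℕ) : ℕ :=
  ((range q).filter (fun r : ℕ => (q : ℤ) ∣ (r : ℤ) * ((n : ℤ) - ((r : ℤ) ^ 2 + b * r + c)))).card

/-- the expected number (up to a constant factor) of the primes `p ∈ (x, 2 x]` for which `n - f(p)` has no prime factor
below a power of `x`: `x` times the product of `1 - ρ(q) / q` over the primes `q ≤ x` -/
noncomputable def expected (b c : ℤ) (n x : ℕ) : ℝ :=
  x * ∏ q ∈ (Icc 1 x).filter Nat.Prime, (1 - (rho b c n q : ℝ) / q)

open Classical in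
/-- the primes `p ∈ (x, 2 x]` such that `n = f(p) + m` for a natural number `m ≥ 1` with at most `s` prime factors
(counted with multiplicity), all larger than `x ^ δ` -/
noncomputable def P (b c : ℤ) (s : ℕ) (δ : ℝ) (n x : ℕ) : Finset ℕ :=
  (Ioc x (2 * x)).filter (fun p : ℕ => p.Prime ∧ ∃ m : ℕ, 1 ≤ m ∧ (n : ℤ) = ((p : ℤ) ^ 2 + b * p + c) + m ∧
    m.primeFactorsList.length ≤ s ∧ ∀ q : ℕ, q.Prime → q ∣ m → (x : ℝ) ^ δ < q)

open Pool.Agent.Zk41.PY (fn AdmP lowPr pol fn_le sysP_poly fnX)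
open Pool.Agent.Y677.RSZ (rt V)
open Pool.Agent.TH423.SH (PS)

/-- the polynomial `n - f` -/
noncomputable def Qp (b c : ℤ) (n : ℕ) : ℤ[X] := C ((n : ℤ) - c) - C b * X - X ^ 2

lemma Qp_fn (b c : ℤ) (n : ℕ) (t : ℤ) : fn (Qp b c n) t = (n : ℤ) - (t ^ 2 + b * t + c) := by
  unfold fn Qp
  rw [eval_sub, eval_sub, eval_C, eval_mul, eval_C, eval_X, eval_pow, eval_X]
  ring

lemma XQ_fn (b c : ℤ) (n : ℕ) (t : ℤ) : fn (X * Qp b c n) t = t * ((n : ℤ) - (t ^ 2 + b * t + c)) := by
  rw [fnX, Qp_fn]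

lemma Qp_deg (b c : ℤ) (n : ℕ) : (Qp b c n).natDegree ≤ 2 := by
  unfold Qp
  compute_degree

lemma XQ_deg (b c : ℤ) (n : ℕ) : (X * Qp b c n).natDegree ≤ 3 := by
  refine natDegree_mul_le.trans ?_
  have h1 : (X : ℤ[X]).natDegree ≤ 1 := natDegree_X_le
  have h2 := Qp_deg b c n
  omega

lemma Qp_coeff (b c : ℤ) (n : ℕ) (M : ℤ) (hM : 1 ≤ M) (hb : |b| ≤ M) (hc : |(n : ℤ) - c| ≤ M) (i : ℕ) :
    |(Qp b c n).coeff i| ≤ M := by
  unfold Qp
  rw [coeff_sub, coeff_sub, coeff_C, coeff_C_mul, coeff_X, coeff_X_pow]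
  rcases i with _ | _ | _ | i
  · simpa using hc
  · simpa using hb
  · simpa using hM
  · have h1 : ¬ (i + 1 + 1 + 1 = 0) := by omega
    have h2 : ¬ (1 = i + 1 + 1 + 1) := by omega
    have h3 : ¬ (i + 1 + 1 + 1 = 2) := by omega
    rw [if_neg h1, if_neg h2, if_neg h3]
    simp
    omega

lemma XQ_coeff (b c : ℤ) (n : ℕ) (M : ℤ) (hM : 1 ≤ M) (hb : |b| ≤ M) (hc : |(n : ℤ) - c| ≤ M) (i : ℕ) :
    |(X * Qp b c n).coeff i| ≤ M := by
  rcases i with _ | i
  · rw [mul_comm, coeff_mul_X_zero, abs_zero]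
    omega
  · rw [mul_comm, coeff_mul_X]
    exact Qp_coeff b c n M hM hb hc i

/-- no fixed prime divisor -/
lemma XQ_adm (b c : ℤ) (n : ℕ) (hn : Odd n) (hbc : Odd (b + c)) (hb : ¬ (3 : ℤ) ∣ b) : AdmP (X * Qp b c n) := by
  intro p hp
  have e : ∀ x : ℤ, (X * Qp b c n).eval x = x * ((n : ℤ) - (x ^ 2 + b * x + c)) := fun x => XQ_fn b c n x
  have hn' : Odd (n : ℤ) := by exact_mod_cast hn
  rcases Nat.lt_or_ge p 5 with h5 | h5
  · have h2 := hp.two_le
    interval_cases p
    · refine ⟨1, ?_⟩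
      rw [e]
      obtain ⟨u, hu⟩ := hn'
      obtain ⟨v, hv⟩ := hbc
      rintro ⟨w, hw⟩
      push_cast at hw
      omega
    · by_cases h1 : (3 : ℤ) ∣ (n : ℤ) - 1 - b - c
      · refine ⟨2, ?_⟩
        rw [e]
        rintro ⟨w, hw⟩
        obtain ⟨u, hu⟩ := h1
        apply hb
        push_cast at hw
        omega
      · refine ⟨1, ?_⟩
        rw [e]
        rintro ⟨w, hw⟩
        apply h1
        push_cast at hw
        exact ⟨w, by linarith⟩
    · exact absurd hp (by norm_num)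
  · by_contra hcon
    push Not at hcon
    have := Fact.mk hp
    -- all values are divisible by `p`
    have h0 : (p : ℤ) ∣ (n : ℤ) - (1 ^ 2 + b * 1 + c) := by
      have := hcon 1
      rw [e, one_mul] at this
      exact this
    have hm : (p : ℤ) ∣ (-1) * ((n : ℤ) - ((-1) ^ 2 + b * (-1) + c)) := by
      have := hcon (-1)
      rwa [e] at this
    have h2 : (p : ℤ) ∣ 2 * ((n : ℤ) - (2 ^ 2 + b * 2 + c)) := by
      have := hcon 2
      rwa [e] at this
    have hpi : Prime (p : ℤ) := Nat.prime_iff_prime_int.1 hp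
    -- `2 b ≡ 0`, hence `b ≡ 0`, hence `6 ≡ 0`
    have g1 : (p : ℤ) ∣ 2 * b := by
      have h3 := dvd_add h0 hm
      have : (n : ℤ) - (1 ^ 2 + b * 1 + c) + (-1) * ((n : ℤ) - ((-1) ^ 2 + b * (-1) + c)) = -(2 * b) := by ring
      rw [this] at h3
      exact (dvd_neg).1 h3
    have g2 : (p : ℤ) ∣ 6 := by
      have h3 := (dvd_sub (h0.mul_left 2) h2).sub g1
      have : 2 * ((n : ℤ) - (1 ^ 2 + b * 1 + c)) - 2 * ((n : ℤ) - (2 ^ 2 + b * 2 + c)) - 2 * b = 6 := by ring
      rwa [this] at h3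
    have g3 : p ∣ 6 := by exact_mod_cast g2
    have g4 := Nat.le_of_dvd (by norm_num) g3
    interval_cases p
    · norm_num at g3
    · exact absurd hp (by norm_num)

lemma exp_eq (b c : ℤ) (n x : ℕ) : expected b c n x = x * V (fn (X * Qp b c n)) 1 x := by
  unfold expected V
  congr 1
  apply prod_congr
  · unfold PS
    ext q
    simp only [mem_filter, mem_Icc, Nat.dvd_one]
    constructor
    · rintro ⟨h1, h2⟩
      exact ⟨h1, h2, h2.ne_one⟩
    · rintro ⟨h1, h2, -⟩
      exact ⟨h1, h2⟩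
  · intro q _
    congr 3
    unfold rho rt
    congr 1
    ext r
    rw [mem_filter, mem_filter, XQ_fn]

/-- **Theorem.** For all `ε > 0` and `A` there are `s` and `δ, c₀ > 0` such that for all `k` and `κ > 0` there are `B` and
`n₀` with the following property. Let `n ≥ n₀` be odd, let `b + c` be odd, `3 ∤ b`, `|b|, |c| ≤ n ^ A`, and let
`x ≥ n ^ ε` be such that `t² + b t + c < n` for `x < t ≤ 2 x`. Then the expected number is at least `x / (log x) ^ 7`, the
set `P` has at least `c₀` times the expected number of elements, and every subset of `P` with at least `κ |P|` elements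
contains a progression of length `k` with difference at most `(log x) ^ B`. -/
theorem result (ε : ℝ) (hε : 0 < ε) (A : ℕ) :
    ∃ (s : ℕ) (δ c₀ : ℝ), 0 < δ ∧ 0 < c₀ ∧ ∀ (k : ℕ) (κ : ℝ), 0 < κ → ∃ B n₀ : ℕ, ∀ n : ℕ, n₀ ≤ n → Odd n →
      ∀ b c : ℤ, Odd (b + c) → ¬ (3 : ℤ) ∣ b → |b| ≤ (n : ℤ) ^ A → |c| ≤ (n : ℤ) ^ A →
      ∀ x : ℕ, (n : ℝ) ^ ε ≤ x → (∀ t : ℕ, x < t → t ≤ 2 * x → (t : ℤ) ^ 2 + b * t + c < n) →
        x / Real.log x ^ 7 ≤ expected b c n x ∧
        c₀ * expected b c n x ≤ (P b c s δ n x).card ∧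
        ∀ S ⊆ P b c s δ n x, κ * (P b c s δ n x).card ≤ S.card → HasAP k (Real.log x ^ B) S := by
  classical
  obtain ⟨δ, c₀, hδ, hδ1, hc₀, H₀, hlow⟩ := lowPr 2
  obtain ⟨c₁, hc₁, H₁, hV⟩ := Pool.Agent.Zk41.LS.V_low1 3
  obtain ⟨C₀, hC₀⟩ : ∃ C₀ : ℕ, C₀ = ⌈((A : ℝ) + 2) / ε⌉₊ + 1 := ⟨_, rfl⟩
  obtain ⟨G, hG⟩ : ∃ G : ℕ, G = C₀ + (C₀ + 2) * 3 + 1 := ⟨_, rfl⟩
  refine ⟨⌊(G : ℝ) / δ⌋₊, δ, c₀, hδ, hc₀, fun k κ hκ => ?_⟩
  obtain ⟨B, H₂, hpol⟩ := pol 3 k C₀ δ (κ * c₀) hδ (by positivity)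
  have hlog : Filter.Tendsto (fun H : ℕ => Real.log (H : ℝ)) Filter.atTop Filter.atTop :=
    Real.tendsto_log_atTop.comp tendsto_natCast_atTop_atTop
  obtain ⟨H₃, hH₃⟩ := Filter.eventually_atTop.1 (hlog.eventually_ge_atTop (max 1 (1 / c₁)))
  obtain ⟨M, hM⟩ : ∃ M : ℕ, M = H₀ + H₁ + H₂ + H₃ + 5 := ⟨_, rfl⟩
  -- `n ^ ε` is large
  obtain ⟨n₁, hn₁⟩ : ∃ n₁ : ℕ, ∀ n : ℕ, n₁ ≤ n → (M : ℝ) ≤ (n : ℝ) ^ ε := by
    have h1 := (tendsto_rpow_atTop hε).comp (tendsto_natCast_atTop_atTop (R := ℝ))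
    exact Filter.eventually_atTop.1 (h1.eventually_ge_atTop (M : ℝ))
  refine ⟨B, n₁ + 2, fun n hn hodd b c hbc hb hbA hcA x hx ht => ?_⟩
  have hxM : M ≤ x := by
    have h1 := (hn₁ n (by omega)).trans hx
    exact_mod_cast h1
  have hx0 : (0 : ℝ) < x := by exact_mod_cast (show 0 < x by omega)
  have hx1 : (1 : ℝ) ≤ x := by exact_mod_cast (show 1 ≤ x by omega)
  have hA := XQ_adm b c n hodd hbc hb
  -- the size of the coefficients
  have hn2 : (2 : ℝ) ≤ n := by exact_mod_cast (show 2 ≤ n by omega)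
  have hnC : (n : ℝ) ^ (A + 2) ≤ (x : ℝ) ^ C₀ := by
    have h1 : ((A : ℝ) + 2) / ε ≤ C₀ := by
      rw [hC₀]
      push_cast
      linarith [Nat.le_ceil (((A : ℝ) + 2) / ε)]
    calc (n : ℝ) ^ (A + 2) = ((n : ℝ) ^ ε) ^ (((A : ℝ) + 2) / ε) := by
          rw [← Real.rpow_mul (by positivity), mul_div_cancel₀ _ hε.ne', ← Real.rpow_natCast]
          push_cast
          rfl
      _ ≤ (x : ℝ) ^ (((A : ℝ) + 2) / ε) := Real.rpow_le_rpow (by positivity) hx (by positivity)
      _ ≤ (x : ℝ) ^ (C₀ : ℝ) := Real.rpow_le_rpow_of_exponent_le hx1 h1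
      _ = (x : ℝ) ^ C₀ := Real.rpow_natCast _ _
  have hnC' : (n : ℤ) ^ (A + 2) ≤ (x : ℤ) ^ C₀ := by exact_mod_cast hnC
  have hn2' : (2 : ℤ) ≤ n := by exact_mod_cast (show 2 ≤ n by omega)
  have hnA : (1 : ℤ) ≤ (n : ℤ) ^ A := one_le_pow₀ (by omega)
  have e1 : (n : ℤ) ^ A + n ≤ (n : ℤ) ^ (A + 2) := by
    have : (n : ℤ) ^ (A + 2) = (n : ℤ) ^ A * (n * n) := by ring
    rw [this]
    have h2 : (0 : ℤ) ≤ ((n : ℤ) ^ A - 1) * ((n : ℤ) * n - 1) := mul_nonneg (by linarith) (by nlinarith)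
    nlinarith
  have hb' : |b| ≤ (x : ℤ) ^ C₀ := by linarith [(show (0 : ℤ) ≤ n by omega)]
  have hc' : |(n : ℤ) - c| ≤ (x : ℤ) ^ C₀ := by
    have h1 := abs_sub (n : ℤ) c
    have h2 : |(n : ℤ)| = n := abs_of_nonneg (by omega)
    rw [h2] at h1
    linarith
  have hx1' : (1 : ℤ) ≤ (x : ℤ) ^ C₀ := one_le_pow₀ (by exact_mod_cast (show 1 ≤ x by omega))
  have hcoef := XQ_coeff b c n ((x : ℤ) ^ C₀) hx1' hb' hc'
  have hxC : x ≤ x ^ C₀ := Nat.le_self_pow (by omega) _
  -- the values are positive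
  have hpos : ∀ t : ℕ, t ∈ Ioc x (x + x) → 0 < (n : ℤ) - ((t : ℤ) ^ 2 + b * t + c) := by
    intro t ht'
    rw [mem_Ioc] at ht'
    have := ht t ht'.1 (by omega)
    linarith
  have hlowc : c₀ * (x * V (fn (X * Qp b c n)) 1 x) ≤ (P b c ⌊(G : ℝ) / δ⌋₊ δ n x).card := by
    obtain ⟨T, hTs, hTp, hTr, hTc⟩ := hlow (Qp b c n) x hA (Qp_deg b c n) (by omega)
    refine hTc.trans ?_
    have hsub : T ⊆ P b c ⌊(G : ℝ) / δ⌋₊ δ n x := by
      intro p hp
      have hpI := hTs hp
      have hv := hpos p hpI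
      have hpp := hTp p hp
      unfold P
      rw [mem_filter]
      refine ⟨?_, hpp, ((n : ℤ) - ((p : ℤ) ^ 2 + b * p + c)).toNat, ?_, ?_, ?_, ?_⟩
      · rw [mem_Ioc] at hpI ⊢
        omega
      · omega
      · rw [Int.toNat_of_nonneg hv.le]
        ring
      · apply Nat.le_floor
        refine Pool.Agent.Zk41.LS.omega_le (by omega) (show 2 ≤ x by omega) hδ G ?_ ?_
        · have h1 := fn_le 3 C₀ x x (by omega) (X * Qp b c n) (XQ_deg b c n) hcoef hxC p (mem_Ioc.1 hpI).2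
          rw [XQ_fn, ← hG, abs_mul] at h1
          have h2 : (1 : ℤ) ≤ |(p : ℤ)| := by
            rw [abs_of_nonneg (by positivity)]
            exact_mod_cast hpp.one_lt.le
          have h3 : |(n : ℤ) - ((p : ℤ) ^ 2 + b * p + c)| ≤ (x : ℤ) ^ G := by
            refine le_trans ?_ h1
            exact le_mul_of_one_le_left (abs_nonneg _) h2
          rw [abs_of_pos hv] at h3
          have h4 : ((((n : ℤ) - ((p : ℤ) ^ 2 + b * p + c)).toNat : ℕ) : ℤ) ≤ ((x ^ G : ℕ) : ℤ) := by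
            rw [Int.toNat_of_nonneg hv.le]
            push_cast
            exact h3
          exact_mod_cast h4
        · intro q hq hqd
          by_contra hcon
          push Not at hcon
          apply hTr p hp q hq hcon
          rw [XQ_fn]
          apply Dvd.dvd.mul_left
          have h5 : ((q : ℕ) : ℤ) ∣ ((((n : ℤ) - ((p : ℤ) ^ 2 + b * p + c)).toNat : ℕ) : ℤ) := by exact_mod_cast hqd
          rwa [Int.toNat_of_nonneg hv.le] at h5
      · intro q hq hqd
        by_contra hcon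
        push Not at hcon
        apply hTr p hp q hq hcon
        rw [XQ_fn]
        apply Dvd.dvd.mul_left
        have h5 : ((q : ℕ) : ℤ) ∣ ((((n : ℤ) - ((p : ℤ) ^ 2 + b * p + c)).toNat : ℕ) : ℤ) := by exact_mod_cast hqd
        rwa [Int.toNat_of_nonneg hv.le] at h5
    exact_mod_cast card_le_card hsub
  rw [exp_eq]
  refine ⟨?_, ?_, ?_⟩
  · have h1 := hV (fn (X * Qp b c n)) x (sysP_poly 3 _ hA (XQ_deg b c n)) (by omega)
    have h2 := hH₃ x (by omega)
    have h3 : 1 ≤ Real.log x := (le_max_left _ _).trans h2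
    have h4 : 1 / c₁ ≤ Real.log x := (le_max_right _ _).trans h2
    rw [div_eq_mul_inv]
    apply mul_le_mul_of_nonneg_left _ hx0.le
    refine le_trans ?_ h1
    rw [inv_eq_one_div, div_le_div_iff₀ (by positivity) (by positivity), one_mul]
    rw [div_le_iff₀ hc₁] at h4
    calc Real.log x ^ (2 * 3) = Real.log x ^ 6 * 1 := by ring
      _ ≤ Real.log x ^ 6 * (Real.log x * c₁) := mul_le_mul_of_nonneg_left h4 (by positivity)
      _ = c₁ * Real.log x ^ 7 := by ring
  · exact hlowc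
  · intro S hS hSc
    obtain ⟨a, d, hd1, hd2, hAP⟩ := hpol x (by omega) (X * Qp b c n) x hA (XQ_deg b c n) hcoef hxC
      (by
        intro t ht'
        rw [XQ_fn]
        have h1 := hpos t ht'
        rw [mem_Ioc] at ht'
        have h2 : (0 : ℤ) < t := by exact_mod_cast (show 0 < t by omega)
        exact (mul_pos h2 h1).ne') S
      (by
        intro p hp
        have h1 := hS hp
        unfold P at h1
        rw [mem_filter, mem_Ioc] at h1
        rw [mem_Ioc]
        omega)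
      (by
        intro p hp q hq hqx hqd
        have h1 := hS hp
        unfold P at h1
        rw [mem_filter, mem_Ioc] at h1
        obtain ⟨⟨h2, h3⟩, hpp, m, hm1, hm2, hm3, hm4⟩ := h1
        rw [XQ_fn] at hqd
        rcases (Nat.prime_iff_prime_int.1 hq).dvd_or_dvd hqd with h4 | h4
        · have h5 : q ∣ p := by exact_mod_cast h4
          have h6 := (Nat.prime_dvd_prime_iff_eq hq hpp).1 h5
          have h7 : (x : ℝ) ^ δ ≤ x := by
            calc (x : ℝ) ^ δ ≤ (x : ℝ) ^ (1 : ℝ) := Real.rpow_le_rpow_of_exponent_le hx1 hδ1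
              _ = x := Real.rpow_one _
          have h8 : (q : ℝ) ≤ x := hqx.trans h7
          have h9 : q ≤ x := by exact_mod_cast h8
          omega
        · have h5 : (n : ℤ) - ((p : ℤ) ^ 2 + b * p + c) = (m : ℤ) := by linarith
          rw [h5] at h4
          have h6 : q ∣ m := by exact_mod_cast h4
          have h7 := hm4 q hq h6
          linarith)
      (by
        calc κ * c₀ * (x * V (fn (X * Qp b c n)) 1 x) = κ * (c₀ * (x * V (fn (X * Qp b c n)) 1 x)) := by ring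
          _ ≤ κ * (P b c ⌊(G : ℝ) / δ⌋₊ δ n x).card := mul_le_mul_of_nonneg_left hlowc hκ.le
          _ ≤ S.card := hSc)
    exact ⟨a, d, hd1, hd2, hAP⟩

end Pool.Agent.Results.MP_d9bc60_nt.EveryOddInteger
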