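import Pool.Agent.Zk41.SC.F
import Pool.Agent.K3h89.SZ.Top

/-!
# Narrow progressions in the representations `n = f(p₁) + p₂`

Let `f = x² + b x + c` be admissible. For almost all odd `n` the set of the primes `p₁` with `n - f(p₁)` prime has at
least `c₀ √n / (log n)²` elements, and every positive proportion of it contains arithmetic progressions of any given
length with a difference of at most a power of `log n`.

Proof. The second part is Szemerédi's theorem relative to sifted sets (project SZ of the starting files, which ends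
with the implication `Pool.Agent.K3h89.SZ.fin_of_cnt`), the open hypothesis of which, `S_CNT`, is proved in
`Pool/Agent/Zk41/SC`: for most odd `n` in `(2 X², G X²]` there are at least `c₀ X / (log X)²` representations with
`p₁ ≤ X`. One replaces the primes `n - f(p₁)` by the numbers free of prime factors up to a power of `log X` (the
bilinear estimate `Pool.Agent.TH882.PG.bilG`), splits the primes `p₁` into classes modulo `W`, the product of the
primes up to `log log X / 4`, and computes the variance in each class; the average of the inverse of the local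
density of `n` over the classes modulo `W` is bounded.
-/

set_option autoImplicit false

open Finset

namespace Pool.Agent.Results.MP_d9bc60_nt.NarrowProgressions

/-- The primes `p₁` of the representations `n = f(p₁) + p₂` with `f = x² + b x + c` and primes `p₁`, `p₂`. -/
def Rep (b c : ℤ) (n : ℕ) : Set ℕ :=
  {p₁ : ℕ | p₁.Prime ∧ ∃ p₂ : ℕ, p₂.Prime ∧ (n : ℤ) = ((p₁ : ℤ) ^ 2 + b * p₁ + c) + p₂}

/-- `S` contains an arithmetic progression of length `k` with difference `1 ≤ d ≤ D`. -/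
def HasProgression (S : Set ℕ) (k : ℕ) (D : ℝ) : Prop :=
  ∃ a d : ℕ, 1 ≤ d ∧ (d : ℝ) ≤ D ∧ ∀ i < k, a + i * d ∈ S

open Classical in
/-- **Theorem.** Let `b + c` be odd and `3 ∤ b`. For all `k` and `κ, ε > 0` there are `c₀ > 0`, `B` and `N₀` such that
for all `N ≥ N₀`, all but at most `ε N` of the odd `n ≤ N` have the following property: at least
`c₀ √n / (log n)²` primes `p₁` occur in the representations `n = f(p₁) + p₂`, and every set `S` of at least `κ` times
the number of these `p₁` contains an arithmetic progression of length `k` with difference at most `(log n) ^ B`. -/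
theorem result (b c : ℤ) (hbc : Odd (b + c)) (hb : ¬ (3 : ℤ) ∣ b) (k : ℕ) (κ ε : ℝ) (hκ : 0 < κ) (hε : 0 < ε) :
    ∃ c₀ : ℝ, 0 < c₀ ∧ ∃ B N₀ : ℕ, ∀ N : ℕ, N₀ ≤ N →
      (((Icc 1 N).filter (fun n : ℕ => Odd n ∧ ¬
        (c₀ * (√n / Real.log n ^ 2) ≤ (Rep b c n).ncard ∧
         ∀ S ⊆ Rep b c n, κ * (Rep b c n).ncard ≤ S.ncard → HasProgression S k (Real.log n ^ B)))).card : ℝ) ≤
        ε * N := by
  have hfin := Pool.Agent.K3h89.SZ.fin_of_cnt Pool.Agent.Zk41.SC.cnt b c hbc hb
  obtain ⟨c₁, hc₁, B1, N1, h1⟩ := hfin k 1 (ε / 2) one_pos (by positivity)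
  obtain ⟨c₂, hc₂, B2, N2, h2⟩ := hfin k (κ * c₁) (ε / 2) (by positivity) (by positivity)
  refine ⟨c₁, hc₁, B2, N1 + N2, fun N hN => ?_⟩
  have e1 := h1 N (by omega)
  have e2 := h2 N (by omega)
  have hrep : ∀ n, Rep b c n = Pool.Agent.K3h89.SZ.Rep b c n := fun n => rfl
  refine le_trans (b := (((Icc 1 N).filter (fun n : ℕ => Odd n ∧ ¬
    (c₁ * (√n / Real.log n ^ 2) ≤ (Pool.Agent.K3h89.SZ.Rep b c n).ncard ∧
     ∀ S ⊆ Pool.Agent.K3h89.SZ.Rep b c n, 1 * (√n / Real.log n ^ 2) ≤ S.ncard →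
      ∃ a d : ℕ, 1 ≤ d ∧ (d : ℝ) ≤ Real.log n ^ B1 ∧ ∀ i < k, a + i * d ∈ S))).card : ℝ) +
    (((Icc 1 N).filter (fun n : ℕ => Odd n ∧ ¬
    (c₂ * (√n / Real.log n ^ 2) ≤ (Pool.Agent.K3h89.SZ.Rep b c n).ncard ∧
     ∀ S ⊆ Pool.Agent.K3h89.SZ.Rep b c n, κ * c₁ * (√n / Real.log n ^ 2) ≤ S.ncard →
      ∃ a d : ℕ, 1 ≤ d ∧ (d : ℝ) ≤ Real.log n ^ B2 ∧ ∀ i < k, a + i * d ∈ S))).card : ℝ)) ?_ (by linarith)
  rw [← Nat.cast_add]
  refine Nat.cast_le.2 (le_trans (card_le_card ?_) (card_union_le _ _))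
  intro n hn
  rw [mem_filter] at hn
  obtain ⟨hn1, hn2, hn3⟩ := hn
  rw [mem_union]
  by_contra hcon
  rw [not_or] at hcon
  obtain ⟨g1, g2⟩ := hcon
  rw [mem_filter] at g1 g2
  push Not at g1 g2
  have g3 := (g1 hn1 hn2).1
  have g4 := (g2 hn1 hn2).2
  apply hn3
  refine ⟨g3, fun S hS hSc => ?_⟩
  obtain ⟨a, d, k1, k2, k3⟩ := g4 S hS (by
    refine le_trans ?_ hSc
    rw [mul_assoc]
    exact mul_le_mul_of_nonneg_left g3 hκ.le)
  exact ⟨a, d, k1, k2, k3⟩

end Pool.Agent.Results.MP_d9bc60_nt.NarrowProgressions
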