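import Pool.Agent.Zk19.R4
import Pool.Agent.Zk38.Cub.E
import Pool.Agent.N375.AV.L2
import Pool.Agent.R482.ST.Dens
import Pool.Agent.R770.LG.Sum

/-!
# `n = f(p₁) + p₂`: one thin exceptional set for all `f`, and thin sequences which avoid it

There is ONE set `E` of natural numbers, with at most `X / (log X) ^ U` members up to `X` for every `U`, such that for
every admissible `f = x² + b x + c` all large odd `n` outside of `E` are of the form `f(p₁) + p₂`, and the number of these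
representations, weighted with `log p₁ log p₂`, is asymptotically the one predicted by Schinzel's conjecture. The set `E`
is avoided by many sequences which have only a power of `log X` members up to `X`: for almost every `α > 1` and all large
`j` no integer within a power of `j` of `α ^ j` is in `E` (so ALL odd integers near these powers are represented, by all
`f`); the same with `√j`, `3 ^ j`, ... in the place of `j`. It is avoided by the neighbourhoods of the values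
`α F(m)`, `F` a composition of additive functions, for all but `N / (log N) ^ U` of the `m ≤ N`; and by random and by
typical thin sets.

Tools: the starting file `MP_0bf1d2_nt.PrimeArguments` (for each `f`, the formula for all but `M / (log M) ^ U` of the `n`
up to `M`), the diagonal lemma `Pool.Agent.Zk38.Cub.diag`, and the starting files on thin sequences (`R482/ST`, `N375/AV`,
`R770/LG`).
-/

set_option autoImplicit false

open Finset MeasureTheory Filter Topology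
open Pool.Agent.N733.TG (Expanding expanding_pow)
open Pool.Agent.N375.AV (PD comp log_windows logThin_of pd_additive pd_largest pd_kempner)

namespace Pool.Agent.Results.MP_d9bc60_nt.OneThinExceptionalSet

/-- the polynomial `f(x) = x² + b x + c` -/
def f (b c x : ℤ) : ℤ := x ^ 2 + b * x + c

/-- the primes `p₁` for which `n - f(p₁)` is a (positive) prime -/
def Reps (b c : ℤ) (n : ℕ) : Set ℕ := {p : ℕ | p.Prime ∧ ((n : ℤ) - f b c p).toNat.Prime}

/-- the number of the representations `n = f(p₁) + p₂`, each counted with the weight `log p₁ log p₂` -/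
noncomputable def weighted (b c : ℤ) (n : ℕ) : ℝ :=
  ∑ᶠ p ∈ Reps b c n, Real.log p * Real.log (((n : ℤ) - f b c p : ℤ) : ℝ)

/-- the number of the positive integers `m` with `f(m) < n` -/
noncomputable def length (b c : ℤ) (n : ℕ) : ℕ := {m : ℕ | 1 ≤ m ∧ 0 < (n : ℤ) - f b c m}.ncard

/-- the number of the residues `r` modulo `p` with `p ∣ r (n - f(r))` -/
def rho (b c : ℤ) (n p : ℕ) : ℕ := ((range p).filter (fun r : ℕ => (p : ℤ) ∣ (r : ℤ) * ((n : ℤ) - f b c r))).card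

/-- the product of Schinzel's local factors `(1 - rho(p) / p) (1 - 1 / p) ^ (-2)` over the primes `p ≤ z` -/
noncomputable def series (b c : ℤ) (n z : ℕ) : ℝ :=
  ∏ p ∈ (Icc 1 z).filter Nat.Prime, (1 - (rho b c n p : ℝ) / p) / (1 - 1 / (p : ℝ)) ^ 2

/-- the expected number, with the local factors of the primes up to `⌊log₂ n⌋ ^ B` -/
noncomputable def expected (b c : ℤ) (B n : ℕ) : ℝ := series b c n (Nat.log 2 n ^ B) * length b c n

/-- **Theorem.** Let `ψ` tend to infinity. There are a set `E` of natural numbers and a function `β ≤ ψ` which tends to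
infinity such that: (1) for every `U` and all large `X` the set `E` has at most `X / (log X) ^ U` members up to `X`;
(2) for every `f = x² + b x + c` with `b + c` odd and `3 ∤ b`, every `0 < ε < 1` and all large odd `n` outside of `E` the
weighted number of the representations `n = f(p₁) + p₂` is `1 + θ ε` times the expected number (`B = β(n)`), `|θ| ≤ 1`, the
expected number is positive and there is a representation; (3) if `v_j ≥ 1` and the sum of `v_j ^ (-t)` converges for some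
`t > 0`, then for almost every `α > 1`, all `A` and all large `j` no `n` in `E` has `|n - α ^ (v_j)| ≤ v_j ^ A`; (4) for
every composition `F = f_1 ∘ ⋯ ∘ f_r` of functions dominated by the largest prime factor, every `G` with steps `≥ a > 0`
and growth at most `v`, all `W`, `U` and large `N`, for all `m ≤ N` but `N / (log N) ^ U` NO `n` in `E` has
`|n - G (F m)| ≤ (1 + log F(m)) ^ W`; (5) if `W_n` are sets in a measure space with `μ (W_n) ≤ C (1 + log n) ^ a / n`, then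
for almost every `ω` only finitely many `n ∈ E` have `ω ∈ W_n`; (6) if `T` is a metric space with a measure such that
closed balls of radius `r` have measure at most `C₀ r ^ m`, `m > 0`, and `φ : ℕ → T` is any map, then for almost every `ξ`
and all `A` only finitely many `n ∈ E` have `dist (φ n) ξ ≤ (1 + log n) ^ A n ^ (-1 / m)`. (7) Examples for (4). -/
theorem result (ψ : ℕ → ℕ) (hψ : Tendsto ψ atTop atTop) : ∃ (E : Set ℕ) (β : ℕ → ℕ), (∀ n, β n ≤ ψ n) ∧
    Tendsto β atTop atTop ∧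
    (∀ U : ℕ, ∃ X₀ : ℕ, ∀ X : ℕ, X₀ ≤ X → ({n : ℕ | n ∈ E ∧ 1 ≤ n ∧ n ≤ X}.ncard : ℝ) ≤ X / Real.log X ^ U) ∧
    (∀ b c : ℤ, Odd (b + c) → ¬ (3 : ℤ) ∣ b → ∀ ε : ℝ, 0 < ε → ε < 1 → ∃ n₀ : ℕ, ∀ n : ℕ, n₀ ≤ n → Odd n → n ∉ E →
      0 < expected b c (β n) n ∧
      |weighted b c n - expected b c (β n) n| ≤ ε * expected b c (β n) n ∧
      ∃ p₁ p₂ : ℕ, p₁.Prime ∧ p₂.Prime ∧ (n : ℤ) = f b c p₁ + p₂) ∧
    (∀ v : ℕ → ℝ, (∀ j, 1 ≤ v j) → ∀ t : ℝ, 0 < t → (Summable fun j => (v j) ^ (-t)) →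
      ∃ Z : Set ℝ, volume Z = 0 ∧ ∀ α : ℝ, 1 < α → α ∉ Z → ∀ A : ℝ, ∃ j₀ : ℕ, ∀ j : ℕ, j₀ ≤ j → ∀ n ∈ E,
        (v j) ^ A < |(n : ℝ) - α ^ (v j)|) ∧
    (∀ fs : List (ℕ → ℕ), (∀ f ∈ fs, PD f) → ∀ G : ℕ → ℝ, Expanding G 1 → ∀ W U : ℕ, ∃ N₀ : ℕ, ∀ N : ℕ, N₀ ≤ N →
      ({m : ℕ | 1 ≤ m ∧ m ≤ N ∧ ∃ n ∈ E, |(n : ℝ) - G (comp fs m)| ≤ (1 + Real.log (comp fs m)) ^ W}.ncard : ℝ) ≤
        N / Real.log N ^ U) ∧
    (∀ (Ω : Type) [MeasurableSpace Ω] (μ : Measure Ω) (W : ℕ → Set Ω) (C a : ℝ),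
      (∀ n : ℕ, 1 ≤ n → μ (W n) ≤ ENNReal.ofReal (C * ((1 + Real.log n) ^ a / n))) →
      ∀ᵐ ω ∂μ, {n | n ∈ E ∧ ω ∈ W n}.Finite) ∧
    (∀ (T : Type) [MetricSpace T] [MeasurableSpace T] (μ : Measure T) (C₀ m : ℝ), 0 < m →
      (∀ (x : T) (r : ℝ), 0 < r → μ (Metric.closedBall x r) ≤ ENNReal.ofReal (C₀ * r ^ m)) →
      ∀ φ : ℕ → T, ∀ᵐ ξ ∂μ, ∀ A : ℝ,
        {n : ℕ | n ∈ E ∧ dist (φ n) ξ ≤ (1 + Real.log n) ^ A * (n : ℝ) ^ (-(1 / m))}.Finite) ∧
    (∀ f : ℕ → ℕ, (∀ a b : ℕ, Nat.Coprime a b → f (a * b) = f a + f b) →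
      (∃ C : ℕ, ∀ q j : ℕ, q.Prime → 1 ≤ j → f (q ^ j) ≤ C * q ^ j) →
      (∃ P : ℕ, ∀ p q : ℕ, p.Prime → q.Prime → P ≤ p → P ≤ q → f p = f q → p = q) → PD f) ∧
    (PD (fun n => n.primeFactors.sup id) ∧ PD (fun n => sInf {k : ℕ | n ∣ k.factorial})) ∧
    ∀ α : ℝ, 0 < α → Expanding (fun v => α * (v : ℝ) ^ (1 : ℝ)) 1 := by
  classical
  obtain ⟨E, β, h1, hβ1, hβ2, h2⟩ := Pool.Agent.Zk19.RR.one_set ψ hψ
  have h1' := Pool.Agent.Zk38.Cub.real_of_nat (E := E) (fun U => by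
    obtain ⟨X₀, hX₀⟩ := h1 U
    exact ⟨X₀, fun X hX => le_trans (le_of_eq (by congr!)) (hX₀ X hX)⟩)
  have hS : ∀ b : ℝ, 0 < b → ∃ C : ℝ, ∀ X : ℝ, 1 ≤ X → {t : ℕ | t ∈ E ∧ (t : ℝ) ≤ X}.Finite ∧
      ({t : ℕ | t ∈ E ∧ (t : ℝ) ≤ X}.ncard : ℝ) ≤ C * X * (1 + Real.log X) ^ (-b) := fun b hb =>
    Pool.Agent.R482.ST.log_count E b hb (by
      obtain ⟨X₀, hX₀⟩ := h1' b
      refine ⟨X₀, fun X hX => le_trans (le_of_eq ?_) (hX₀ X hX)⟩
      congr!)
  refine ⟨E, β, hβ1, hβ2, fun U => ?_, fun b c hbc h3 ε hε hε1 => ?_, fun v hv t ht hvt => ?_,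
    fun fs hfs G hG W U => log_windows (logThin_of (fun B => by
      obtain ⟨X₀, hX₀⟩ := h1' B
      refine ⟨X₀, fun X hX => le_trans (le_of_eq ?_) (hX₀ X hX)⟩
      congr!)) fs hfs hG W U, fun Ω _ μ W C c hW => Pool.Agent.R770.LG.ae_finite E hS μ W C c hW,
    fun T _ _ μ C₀ m hm hμ φ => Pool.Agent.R770.LG.ae_near E hS μ hm hμ φ,
    fun f a1 a2 a3 => pd_additive a1 a2 a3, ⟨pd_largest, pd_kempner⟩, fun α hα => expanding_pow hα le_rfl⟩
  · obtain ⟨X₀, hX₀⟩ := h1 U
    refine ⟨X₀, fun X hX => le_trans (le_of_eq ?_) (hX₀ X hX)⟩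
    rw [← Set.ncard_coe_finset]
    congr 2
    ext n
    simp only [coe_filter, mem_Icc, Set.mem_ofPred_eq]
    tauto
  · obtain ⟨n₀, hn₀⟩ := h2 b c hbc h3 ε hε
    refine ⟨n₀, fun n hn hodd hnE => ?_⟩
    have hg := hn₀ n hn hodd hnE
    have hrep := hg.rep hε1
    obtain ⟨g1, g2, g3⟩ := hg
    exact ⟨mul_pos g1 (by exact_mod_cast g2), g3, hrep⟩
  · exact Pool.Agent.R482.ST.pow_log_windows E (fun n : ℕ => (n : ℝ)) hv hvt ht hS

end Pool.Agent.Results.MP_d9bc60_nt.OneThinExceptionalSet
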