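import Pool.Agent.Zk19.M20

set_option autoImplicit false

/-!
# Many integers represented as `f(p) + q` with the same prime `p`

Let `A > 0`, `d ≥ 1`, `B` and `ε > 0` be fixed. For every large `N`, all `k ≤ A log log N`, all polynomials `f₁, …, f_k` with
integer coefficients, of degree `d` and with leading coefficients at most `K log log N` (for `d = 2` and leading coefficient
`1` these are the polynomials of the problem), and all `X` with `X ^ d ≥ N / (log N) ^ B` and `|f_i (x)| ≤ N / (log N) ^ 3`
for `x ≤ X`: for all but a proportion at most `ε` of the locally solvable systems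

  `n_i = f_i (p) + q_i`  (`i = 1, …, k`), `n ∈ [1, N] ^ k`,

the number of primes `p ≤ X` for which all `q_i = n_i - f_i (p)` are primes is asymptotic (up to a factor `1 ± ε`) to the
number expected from the conjecture of Schinzel.
-/

namespace Pool.Agent.Results.MP_d9bc60_nt.SimultaneousRepresentations

open Finset Polynomial

/-- The system `n i = f i (p) + q i` is locally solvable: for every prime `l` there is a number `a`, not divisible by `l`,
for which no `n i - f i (a)` is divisible by `l`. -/
def LocallySolvable {k : ℕ} (f : Fin k → ℤ[X]) (n : Fin k → ℕ) : Prop :=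
  ∀ l : ℕ, l.Prime → ∃ a : ℕ, ¬ l ∣ a ∧ ∀ i, ¬ (l : ℤ) ∣ (n i : ℤ) - (f i).eval (a : ℤ)

open Classical in
/-- The number of the primes `p ≤ X` for which all the numbers `n i - f i (p)` are (positive) primes. -/
noncomputable def commonPrimes {k : ℕ} (f : Fin k → ℤ[X]) (n : Fin k → ℕ) (X : ℕ) : ℕ :=
  ((Icc 1 X).filter fun p : ℕ => p.Prime ∧ ∀ i, ((n i : ℤ) - (f i).eval (p : ℤ)).toNat.Prime).card

/-- The product of the primes up to `K log log N`. -/
noncomputable def modulus (K : ℝ) (N : ℕ) : ℕ := primorial ⌊K * Real.log (Real.log N)⌋₊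

open Classical in
/-- The number of the residues `a` modulo `Q` for which `a` and all `n i - f i (a)` are prime to `Q`. -/
noncomputable def localCount {k : ℕ} (Q : ℕ) (f : Fin k → ℤ[X]) (n : Fin k → ℕ) : ℕ :=
  ((range Q).filter fun a : ℕ => a.Coprime Q ∧ ∀ i, IsCoprime ((n i : ℤ) - (f i).eval (a : ℤ)) Q).card

/-- The expected number: `Q` is the product of the primes up to `K log log N`, `(localCount / φ(Q)) (Q / φ(Q)) ^ k` is the
partial product over these primes of the singular series, and `X / (log X (log N) ^ k)` is the density. -/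
noncomputable def expected {k : ℕ} (K : ℝ) (N X : ℕ) (f : Fin k → ℤ[X]) (n : Fin k → ℕ) : ℝ :=
  (localCount (modulus K N) f n : ℝ) / (modulus K N).totient * ((modulus K N : ℝ) / (modulus K N).totient) ^ k *
    (X / (Real.log X * Real.log N ^ k))

open Classical in
/-- The locally solvable systems with `1 ≤ n i ≤ N`. -/
noncomputable def systems {k : ℕ} (f : Fin k → ℤ[X]) (N : ℕ) : Finset (Fin k → ℕ) :=
  (Fintype.piFinset fun _ : Fin k => Icc 1 N).filter fun n => LocallySolvable f n

open Classical in
/-- The locally solvable systems for which the number of the common primes differs from the expected number by more than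
`ε` times the expected number. -/
noncomputable def exceptions {k : ℕ} (ε K : ℝ) (f : Fin k → ℤ[X]) (N X : ℕ) : Finset (Fin k → ℕ) :=
  (systems f N).filter fun n => ¬ |(commonPrimes f n X : ℝ) - expected K N X f n| ≤ ε * expected K N X f n

section

open Pool.Agent.Zk19

variable {k : ℕ} {f : Fin k → ℤ[X]}

lemma admP_iff {b : Fin k → ℕ} : AdmP True (fun i => -f i) b ↔ LocallySolvable f b := by
  unfold AdmP LocallySolvable
  apply forall_congr'
  intro p
  apply imp_congr Iff.rfl
  apply exists_congr
  intro n
  apply and_congr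
  · exact true_imp_iff
  · apply forall_congr'
    intro i
    rw [eval_neg, neg_add_eq_sub]

lemma card_filter_iff {α : Type*} (s : Finset α) (p q : α → Prop) (ip : DecidablePred p) (iq : DecidablePred q)
    (h : ∀ x ∈ s, p x ↔ q x) : (@Finset.filter α p ip s).card = (@Finset.filter α q iq s).card := by
  congr 1
  ext x
  rw [mem_filter, mem_filter]
  exact and_congr_right (h x)

lemma cntP_eq (b : Fin k → ℕ) (X : ℕ) : cntP True (fun i => -f i) b X = commonPrimes f b X := by
  classical
  unfold cntP commonPrimes
  refine card_filter_iff _ _ _ _ _ fun p _ => ?_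
  apply and_congr
  · exact true_imp_iff
  · apply forall_congr'
    intro i
    rw [eval_neg, neg_add_eq_sub]

lemma RU_card (Q : ℕ) [NeZero Q] (b : Fin k → ℕ) :
    (RU True Q (fun i => -f i) (res Q b)).card = localCount Q f b := by
  classical
  unfold localCount
  apply card_bij (fun r _ => r.val)
  · intro r hr
    rw [mem_RU] at hr
    obtain ⟨h1, h2⟩ := hr
    rw [mem_filter, mem_range]
    refine ⟨ZMod.val_lt r, ?_, fun i => ?_⟩
    · have := h1 trivial
      rwa [← ZMod.natCast_zmod_val r, ZMod.isUnit_iff_coprime] at this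
    · have h3 := h2 i
      have e : res Q b i + (((-f i).eval (r.val : ℤ) : ℤ) : ZMod Q) = ((((b i : ℤ) - (f i).eval (r.val : ℤ)) : ℤ) : ZMod Q) := by
        unfold res
        rw [eval_neg]
        push_cast
        ring
      rw [e, ZMod.coe_int_isUnit_iff_isCoprime] at h3
      exact h3.symm
  · intro r _ r' _ h
    exact ZMod.val_injective Q h
  · intro a ha
    rw [mem_filter, mem_range] at ha
    obtain ⟨h1, h2, h3⟩ := ha
    have hval : ((a : ZMod Q)).val = a := ZMod.val_cast_of_lt h1
    refine ⟨(a : ZMod Q), ?_, hval⟩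
    rw [mem_RU, hval]
    refine ⟨fun _ => (ZMod.isUnit_iff_coprime _ _).2 h2, fun i => ?_⟩
    have e : res Q b i + (((-f i).eval (a : ℤ) : ℤ) : ZMod Q) = ((((b i : ℤ) - (f i).eval (a : ℤ)) : ℤ) : ZMod Q) := by
      unfold res
      rw [eval_neg]
      push_cast
      ring
    rw [e, ZMod.coe_int_isUnit_iff_isCoprime]
    exact (h3 i).symm

end

/-- **Theorem.** Almost all locally solvable systems of at most `A log log N` equations `n_i = f_i (p) + q_i` have the
expected number of solutions in primes with the same prime `p`. -/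
theorem result (A ε K : ℝ) (d B : ℕ) (hA : 0 < A) (hε : 0 < ε) (hd : 1 ≤ d) (hK : (d + 2) * A ≤ K) :
    ∃ N₀ : ℕ, ∀ N : ℕ, N₀ ≤ N → ∀ k : ℕ, (k : ℝ) ≤ A * Real.log (Real.log N) → ∀ f : Fin k → ℤ[X],
      (∀ i, (f i).natDegree = d ∧ |((f i).leadingCoeff : ℝ)| ≤ K * Real.log (Real.log N)) →
      ∀ X : ℕ, X ≤ N → (N : ℝ) ≤ (X : ℝ) ^ d * Real.log N ^ B →
      (∀ i, ∀ x : ℕ, 1 ≤ x → x ≤ X → |(((f i).eval (x : ℤ) : ℤ) : ℝ)| * Real.log N ^ 3 ≤ N) →
      ((exceptions ε K f N X).card : ℝ) ≤ ε * (systems f N).card := by
  classical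
  have hd0 : (1 : ℝ) ≤ d := by exact_mod_cast hd
  have hdA : 0 ≤ (d : ℝ) * A := by positivity
  have hdA1 : A ≤ (d : ℝ) * A := le_mul_of_one_le_left hA.le hd0
  have hε1 : 0 < min ε 1 := lt_min hε one_pos
  obtain ⟨N₀, h⟩ := Pool.Agent.Zk19.prime_case (A := A) (K := K) (ε := min ε 1) hA B hd (by linarith) (by linarith) hε1
    (min_le_right _ _)
  refine ⟨N₀, ?_⟩
  intro N hN k hk f hf X hXN hNX hbd
  have hQ0 : 0 < modulus K N := primorial_pos _
  have : NeZero (modulus K N) := ⟨hQ0.ne'⟩
  have hsys : systems f N = (Fintype.piFinset fun _ : Fin k => Icc 1 N).filter (Pool.Agent.Zk19.AdmP True (fun i => -f i)) := by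
    unfold systems
    apply filter_congr
    intro b _
    exact admP_iff.symm
  have hexp : ∀ b : Fin k → ℕ, ((Pool.Agent.Zk19.RU True (modulus K N) (fun i => -f i) (Pool.Agent.Zk19.res (modulus K N) b)).card : ℝ) *
      ((X : ℝ) / (modulus K N).totient / Real.log X) * (((modulus K N : ℕ) : ℝ) / (modulus K N).totient / Real.log N) ^ k =
      expected K N X f b := by
    intro b
    rw [RU_card]
    unfold expected
    rw [div_pow _ (Real.log N) k]
    simp only [div_eq_mul_inv, mul_inv]
    ring
  have key := h N hN k X (fun i => -f i) (modulus K N) hk ?_ ?_ hNX hXN rfl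
    (fun b => |(commonPrimes f b X : ℝ) - expected K N X f b| ≤ ε * expected K N X f b) ?_
  · rw [← hsys] at key
    refine le_trans (le_of_eq ?_) (key.trans ?_)
    · unfold exceptions
      rfl
    · exact mul_le_mul_of_nonneg_right (min_le_left _ _) (Nat.cast_nonneg _)
  · intro i
    obtain ⟨h1, h2⟩ := hf i
    refine ⟨by rw [natDegree_neg]; exact h1, ?_, ?_⟩
    · rw [leadingCoeff_neg, Int.natAbs_neg]
      apply Nat.one_le_iff_ne_zero.2
      rw [Int.natAbs_ne_zero, leadingCoeff_ne_zero]
      intro h0
      rw [h0, natDegree_zero] at h1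
      omega
    · rw [leadingCoeff_neg, Int.natAbs_neg, Nat.cast_natAbs]
      push_cast
      exact h2
  · intro i x hx1 hx2
    rw [eval_neg, abs_neg]
    push_cast
    exact hbd i x hx1 hx2
  · intro b hb
    rw [hexp b, cntP_eq] at hb
    have h0 : 0 ≤ expected K N X f b := by
      unfold expected
      have h1 : 0 ≤ Real.log X := Real.log_natCast_nonneg X
      have h2 : 0 ≤ Real.log N := Real.log_natCast_nonneg N
      positivity
    exact hb.trans (mul_le_mul_of_nonneg_right (min_le_left _ _) h0)

end Pool.Agent.Results.MP_d9bc60_nt.SimultaneousRepresentations
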